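import Mathlib
import Pool.Agent.Helper79L.MF.Fam

set_option autoImplicit false

/-!
# Compacta whose small subsets have Corson closures: the compacta of almost disjoint families
-/

namespace Pool.Agent.Results.MP_1c9258_gt.AlmostDisjointFamilies

open Set Cardinal Topology
open Pool.Agent.Helper79L.LS Pool.Agent.Helper79L.MF

/-- `K` is Corson compact in the sense of the problem: it embeds in some `ℝ^Γ` with all points of
countable support (used for compact Hausdorff `K`). -/
def IsCorson (K : Type) [TopologicalSpace K] : Prop :=
  ∃ (Γ : Type) (f : K → (Γ → ℝ)), IsEmbedding f ∧ ∀ x, (Function.support (f x)).Countable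

/-- The hypothesis of the question: the closure of every subset of size at most `𝔠` is Corson. -/
def SmallCorson (K : Type) [TopologicalSpace K] : Prop :=
  ∀ A : Set K, #A ≤ 𝔠 → IsCorson ↥(closure A)

/-- Distinct members of the family `A` have finite intersection. -/
def AlmostDisjoint {I J : Type} (A : J → Set I) : Prop :=
  ∀ j j', j ≠ j' → (A j ∩ A j').Finite

/-- The subfamily `A j` (`j ∈ T`) becomes point-countable after a finite set is removed from each
member. -/
def EssPointCountable {I J : Type} (A : J → Set I) (T : Set J) : Prop :=
  ∃ F : J → Set I, (∀ j ∈ T, (F j).Finite) ∧ ∀ i, {j | j ∈ T ∧ i ∈ A j ∧ i ∉ F j}.Countable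

/-- For every almost disjoint family there is a compact Hausdorff space (the one-point
compactification of the Mrowka space of the family) which is Corson exactly if the family is
essentially point-countable, and in which the closures of all sets of size at most `𝔠` are Corson
exactly if all subfamilies of size at most `𝔠` are essentially point-countable. Hence a positive
answer to the question implies that an almost disjoint family is essentially point-countable as soon
as all its subfamilies of size at most `𝔠` are. -/
theorem result :
    (∀ (I J : Type) (A : J → Set I), AlmostDisjoint A →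
      ∃ (X : Type) (_ : TopologicalSpace X) (_ : CompactSpace X) (_ : T2Space X),
        (IsCorson X ↔ EssPointCountable A univ) ∧
        (SmallCorson X ↔ ∀ T : Set J, #T ≤ 𝔠 → EssPointCountable A T)) ∧
    ((∀ (X : Type) [TopologicalSpace X] [CompactSpace X] [T2Space X],
        SmallCorson X → IsCorson X) →
      ∀ (I J : Type) (A : J → Set I), AlmostDisjoint A →
        (∀ T : Set J, #T ≤ 𝔠 → EssPointCountable A T) → EssPointCountable A univ) := by
  have key : ∀ (I J : Type) (A : J → Set I), AlmostDisjoint A →
      ∃ (X : Type) (_ : TopologicalSpace X) (_ : CompactSpace X) (_ : T2Space X),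
        (IsCorson X ↔ EssPointCountable A univ) ∧
        (SmallCorson X ↔ ∀ T : Set J, #T ≤ 𝔠 → EssPointCountable A T) := fun I J A had =>
    ⟨Sp A, inferInstance, inferInstance, t2 had, whole had, small had⟩
  refine ⟨key, fun hQ I J A had hT => ?_⟩
  obtain ⟨X, _, _, _, h1, h2⟩ := key I J A had
  exact h1.1 (hQ X (h2.2 hT))

end Pool.Agent.Results.MP_1c9258_gt.AlmostDisjointFamilies
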