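import Mathlib
import Pool.Agent.Helper79L.LS.Main
import Pool.Agent.H341Q.Club

set_option autoImplicit false

/-!
# Compacta whose small subsets have Corson closures: a negative answer from a nonreflecting
stationary set
-/

namespace Pool.Agent.Results.MP_1c9258_gt.NonreflectingCorson

open Set Cardinal Topology
open Pool.Agent.Helper79L.LS
open Pool.Agent.H82.LadA (reg_toType)

/-- `K` is Corson compact in the sense of the problem: it embeds in some `ℝ^Γ` with all points of
countable support (used for compact Hausdorff `K`). -/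
def IsCorson (K : Type) [TopologicalSpace K] : Prop :=
  ∃ (Γ : Type) (f : K → (Γ → ℝ)), IsEmbedding f ∧ ∀ x, (Function.support (f x)).Countable

/-- `K` embeds in some `{0,1}^Γ` with every point having at most two nonzero coordinates (for
compact `K` this makes `K` uniform Eberlein compact, and in particular Corson compact). -/
def EmbedsSupportTwo (K : Type) [TopologicalSpace K] : Prop :=
  ∃ (Γ : Type) (f : K → (Γ → ℝ)), IsEmbedding f ∧ (∀ x t, f x t = 0 ∨ f x t = 1) ∧
    ∀ x, (Function.support (f x)).encard ≤ 2

/-- `S` is a stationary set of points of cofinality `ω` in the regular cardinal `κ` (represented by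
the well-order `κ.ord.ToType` of order type `κ`) which does not reflect at any point whose
cofinality is uncountable and at most `μ`: `S` is stationary in `κ`, every point of `S` has
cofinality `ω`, and for no point `ρ` with `ω < cf ρ ≤ μ` is `S ∩ ρ` stationary in `ρ`. -/
structure NotReflecting (μ κ : Cardinal.{0}) (S : Set κ.ord.ToType) : Prop where
  regular : κ.IsRegular
  stationary : IsStationary S
  cof_eq : ∀ δ ∈ S, Order.cof (Iio δ) = ℵ₀
  not_reflect : ∀ ρ : κ.ord.ToType, ℵ₀ < Order.cof (Iio ρ) → Order.cof (Iio ρ) ≤ μ →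
    ¬ IsStationary {x : Iio ρ | (x : κ.ord.ToType) ∈ S}

/-- Let `μ ≥ 𝔠` be a cardinal with `μ ^ ω = μ` (for instance `μ = 𝔠`) and let `κ > μ` be regular.
If some stationary set of points of cofinality `ω` in `κ` reflects at no point whose cofinality is
uncountable and at most `μ`, then there is a compact Hausdorff space that is not Corson compact
although the closure of each of its subsets of size at most `μ`, in particular of size at most
`𝔠`, is Corson compact, and even embeds in some `{0,1}^Γ` with all supports of size at most `2`.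
By contraposition (take `μ = 𝔠`), a positive answer to the question implies that for every regular
`κ > 𝔠` every stationary subset of `κ` of points of cofinality `ω` reflects at a point of
uncountable cofinality at most `𝔠`. -/
theorem result (μ κ : Cardinal.{0}) (hcμ : 𝔠 ≤ μ) (hμ : μ ^ ℵ₀ = μ) (hμκ : μ < κ)
    (S : Set κ.ord.ToType) (hS : NotReflecting μ κ S) :
    ∃ (X : Type) (_ : TopologicalSpace X) (_ : CompactSpace X) (_ : T2Space X),
      (∀ A : Set X, #A ≤ μ → EmbedsSupportTwo ↥(closure A)) ∧
      (∀ A : Set X, #A ≤ 𝔠 → IsCorson ↥(closure A)) ∧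
      ¬ IsCorson X := by
  have h0 : ℵ₀ < κ := aleph0_lt_continuum.trans (hcμ.trans_lt hμκ)
  have hR := reg_toType hS.regular
  have hno : NoMaxOrder κ.ord.ToType := Cardinal.noMaxOrder h0.le
  have hne : Nonempty κ.ord.ToType := mk_ne_zero_iff.1 (by
    rw [mk_ord_toType]; exact (aleph0_pos.trans h0).ne')
  have hcof : Order.cof κ.ord.ToType = κ := by
    rw [Ordinal.cof_toType, hS.regular.cof_ord]
  have hSt : St S := by
    intro g a
    have hC := Pool.Agent.H341Q.isClub_closure (W := κ.ord.ToType) (by rw [hcof]; exact h0)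
      (fun x => by rw [hcof]; exact hR.iic x) (fun y => max (g y) a)
    obtain ⟨x, hxS, hxC⟩ := hS.stationary hC
    have hx : Nonempty (Iio x) := by
      rw [← Order.cof_ne_zero_iff, hS.cof_eq x hxS]
      exact aleph0_ne_zero
    obtain ⟨⟨y, hy⟩⟩ := hx
    exact ⟨x, hxS, (le_max_right _ _).trans_lt (hxC y hy),
      fun z hz => (le_max_left _ _).trans_lt (hxC z hz)⟩
  obtain ⟨L, hL⟩ := lad_exists S hS.cof_eq
  have hE : ∀ A : Set (Sp (lj S L)), #A ≤ μ → EmbedsSupportTwo ↥(closure A) := by
    intro A hA
    have hT : #(cset S L A) ≤ μ := card_cset hL A μ hμ hcμ hA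
    obtain ⟨ρ, hρ⟩ := hR.bdd (hT.trans_lt hμκ)
    have hTS : cset S L A ⊆ S := fun j hj => hj.1
    exact corson_closure hL (cset S L A) hTS
      (good_sub S _ hTS μ hT hS.not_reflect) A ρ (fun j hj => (hρ j hj).le) Subset.rfl
  refine ⟨Sp (lj S L), inferInstance, inferInstance, t2 (had hL), hE, ?_, ?_⟩
  · intro A hA
    obtain ⟨Γ, f, h1, -, h3⟩ := hE A (hA.trans hcμ)
    refine ⟨Γ, f, h1, fun x => ?_⟩
    exact (finite_of_encard_le_coe (k := 2) (h3 x)).countable
  · exact not_corson hR h0 hSt hL

end Pool.Agent.Results.MP_1c9258_gt.NonreflectingCorson
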