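import Mathlib
import Pool.Agent.Helper79L.BD.Refl

set_option autoImplicit false

/-!
# Compacta whose small subsets have Corson closures: a positive answer from stationary reflection
-/

namespace Pool.Agent.Results.MP_1c9258_gt.ReflectionCorson

open Set Cardinal Topology

/-- `K` is Corson compact in the sense of the problem: it embeds in some `ℝ^Γ` with all points of
countable support (used for compact Hausdorff `K`). -/
def IsCorson (K : Type) [TopologicalSpace K] : Prop :=
  ∃ (Γ : Type) (f : K → (Γ → ℝ)), IsEmbedding f ∧ ∀ x, (Function.support (f x)).Countable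

/-- The members of `𝓢` which are countable subsets of `I` form a stationary subset of `[I]^ω`: for
every function `T` from finite subsets to countable subsets mapping finite subsets of `I` to
subsets of `I`, some countable `a ∈ 𝓢` with `a ⊆ I` is closed under `T`. -/
def StationaryIn {K : Type} (𝓢 : Set (Set K)) (I : Set K) : Prop :=
  ∀ T : Finset K → Set K, (∀ t, (T t).Countable) → (∀ t : Finset K, (↑t : Set K) ⊆ I → T t ⊆ I) →
    ∃ a ∈ 𝓢, a.Countable ∧ a ⊆ I ∧ ∀ t : Finset K, (↑t : Set K) ⊆ a → T t ⊆ a

/-- Stationary reflection for countable sets: if `𝓢` is stationary in `[K]^ω` and `Φ` maps countable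
subsets of `K` to countable subsets of `K`, then there is `I ⊆ K` of size at most `𝔠`, closed under
`Φ`, such that `𝓢` is stationary in `[I]^ω`. -/
def Reflection : Prop :=
  ∀ (K : Type) (𝓢 : Set (Set K)), StationaryIn 𝓢 Set.univ →
    ∀ Φ : Set K → Set K, (∀ C, C.Countable → (Φ C).Countable) →
      ∃ I : Set K, #I ≤ 𝔠 ∧ (∀ C ⊆ I, C.Countable → Φ C ⊆ I) ∧ StationaryIn 𝓢 I

/-- Under this reflection principle the question has a positive answer: a compact Hausdorff space
in which the closure of each subset of size at most `𝔠` is Corson compact is itself Corson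
compact. -/
theorem result (h : Reflection) :
    ∀ (X : Type) [TopologicalSpace X] [CompactSpace X] [T2Space X],
      (∀ A : Set X, #A ≤ 𝔠 → IsCorson ↥(closure A)) → IsCorson X := by
  intro X _ _ _ hX
  have h1 : ∀ B : Set X, #B ≤ 𝔠 → Pool.Agent.Helper535.CorsonOn (closure B) := by
    intro B hB
    obtain ⟨Γ, f, hf, hc⟩ := hX B hB
    apply Pool.Agent.Helper535.CorsonOn.of_subtype isClosed_closure
    refine ⟨range fun γ : Γ => (⟨fun z => f z γ, (continuous_apply γ).comp hf.continuous⟩ :
      C(↥(closure B), ℝ)), ?_, ?_⟩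
    · intro z _
      refine ((hc z).image fun γ : Γ => (⟨fun z => f z γ,
        (continuous_apply γ).comp hf.continuous⟩ : C(↥(closure B), ℝ))).mono ?_
      rintro _ ⟨⟨γ, rfl⟩, hne⟩
      exact ⟨γ, hne, rfl⟩
    · intro x _ y _ hxy
      refine hf.injective (funext fun γ => ?_)
      exact hxy _ ⟨γ, rfl⟩
  obtain ⟨Γ, e, he, hs⟩ := Pool.Agent.Helper535.embedding_of_corson
    (Pool.Agent.Helper79L.BD.refl_corson h X h1)
  exact ⟨Γ, e, he, hs⟩

end Pool.Agent.Results.MP_1c9258_gt.ReflectionCorson
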